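import Pool.Agent.R70.BT2.Refl

/-! The closure of the rational points of a hypersurface of bidegree (2, 2) is open at all points
with (G) in one of the two directions, independently at the places (helper70). -/

set_option autoImplicit false
set_option maxHeartbeats 400000

open Filter Topology

namespace Pool.Agent.R70.BT2

open Pool.Agent.R70.BT

attribute [local irreducible] form

section

variable {K : Type} [Field K] {ι : Type} [Finite ι] {L : ι → Type}
  [∀ v, NontriviallyNormedField (L v)] {σ : ∀ v, K →+* L v}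

/-- **Simultaneous reflections.** -/
theorem xdir {A B : ℕ} {c : Fin A → Fin A → Fin B → Fin B → K}
    (hσ : DenseRange fun (a : K) (v : ι) => σ v a)
    {P Q : ∀ v, (Fin A → L v) × (Fin B → L v)} (hP : P ∈ closure (pts c σ))
    (h : ∀ v, SX (fun i j k l => σ v (c i j k l)) (P v) (Q v)) : Q ∈ closure (pts c σ) := by
  classical
  rcases isEmpty_or_nonempty ι with hι | ⟨⟨v₀⟩⟩
  · have : Q = P := Subsingleton.elim _ _
    rwa [this]
  let cv : ∀ v, Fin A → Fin A → Fin B → Fin B → L v := fun v i j k l => σ v (c i j k l)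
  choose u hu hQ using h
  let Ψ : (∀ v, Fin A → L v) × (∀ v, (Fin A → L v) × (Fin B → L v)) →
      (∀ v, (Fin A → L v) × (Fin B → L v)) := fun q v =>
    ((q.2 v).1 + (-(polX (cv v) (q.2 v).2 (q.2 v).1 (q.1 v)) /
      form (cv v) (q.1 v) (q.2 v).2) • q.1 v, (q.2 v).2)
  have hΨ : Ψ (u, P) = Q := by
    funext v
    exact (hQ v).symm
  have hc1 : ∀ v, Continuous fun q : (∀ v, Fin A → L v) × (∀ v, (Fin A → L v) × (Fin B → L v)) =>
      (q.2 v).1 := fun v => by fun_prop
  have hc2 : ∀ v, Continuous fun q : (∀ v, Fin A → L v) × (∀ v, (Fin A → L v) × (Fin B → L v)) =>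
      (q.2 v).2 := fun v => by fun_prop
  have hc3 : ∀ v, Continuous fun q : (∀ v, Fin A → L v) × (∀ v, (Fin A → L v) × (Fin B → L v)) =>
      q.1 v := fun v => by fun_prop
  have hcf : ∀ v, Continuous fun q : (∀ v, Fin A → L v) × (∀ v, (Fin A → L v) × (Fin B → L v)) =>
      form (cv v) (q.1 v) (q.2 v).2 := fun v => form_cont' _ (hc3 v) (hc2 v)
  have hcp : ∀ v, Continuous fun q : (∀ v, Fin A → L v) × (∀ v, (Fin A → L v) × (Fin B → L v)) =>
      polX (cv v) (q.2 v).2 (q.2 v).1 (q.1 v) := fun v => polX_cont _ (hc1 v) (hc3 v) (hc2 v)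
  have hne : ∀ v, form (cv v) (u v) (P v).2 ≠ 0 := hu
  have hΨc : ContinuousAt Ψ (u, P) := by
    refine continuousAt_pi.2 fun v => ContinuousAt.prodMk ?_ (hc2 v).continuousAt
    have h3 : ContinuousAt (fun q : (∀ v, Fin A → L v) × (∀ v, (Fin A → L v) × (Fin B → L v)) =>
        -(polX (cv v) (q.2 v).2 (q.2 v).1 (q.1 v)) / form (cv v) (q.1 v) (q.2 v).2) (u, P) :=
      ((hcp v).continuousAt.neg).div (hcf v).continuousAt (hne v)
    refine continuousAt_pi.2 fun i => ?_
    have h4 : Continuous fun q : (∀ v, Fin A → L v) × (∀ v, (Fin A → L v) × (Fin B → L v)) =>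
        (q.2 v).1 i := by fun_prop
    have h5 : Continuous fun q : (∀ v, Fin A → L v) × (∀ v, (Fin A → L v) × (Fin B → L v)) =>
        q.1 v i := by fun_prop
    exact h4.continuousAt.add (h3.mul h5.continuousAt)
  rw [mem_closure_iff_nhds, ← hΨ]
  intro O hO
  have hW : Ψ ⁻¹' O ∩ {q | ∀ v, form (cv v) (q.1 v) (q.2 v).2 ≠ 0} ∈ 𝓝 (u, P) := by
    refine Filter.inter_mem (hΨc hO) ?_
    rw [Set.ofPred_forall]
    exact Filter.iInter_mem.2 fun v => (hcf v).continuousAt.eventually_ne (hne v)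
  have hcl : (u, P) ∈ closure (Set.range (fun (a : Fin A → K) (v : ι) (l : Fin A) => σ v (a l)) ×ˢ
      pts c σ) := by
    rw [closure_prod_eq]
    exact ⟨dense_vec hσ A u, hP⟩
  obtain ⟨⟨_, _⟩, ⟨hq1, hq2⟩, ⟨a, rfl⟩, ⟨x, y, hxy, rfl⟩⟩ := mem_closure_iff_nhds.1 hcl _ hW
  have hfa : ∀ v, form (cv v) (fun l => σ v (a l)) (fun k => σ v (y k)) = σ v (form c a y) :=
    fun v => form_map (σ v) c a y
  have hpa : ∀ v, polX (cv v) (fun k => σ v (y k)) (fun i => σ v (x i)) (fun l => σ v (a l)) =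
      σ v (polX c y x a) := fun v => polX_map (σ v) c y x a
  have hay : form c a y ≠ 0 := by
    intro h
    apply hq2 v₀
    change form (cv v₀) (fun l => σ v₀ (a l)) (fun k => σ v₀ (y k)) = 0
    rw [hfa, h, map_zero]
  refine ⟨_, hq1, x + (-(polX c y x a) / form c a y) • a, y, ?_, ?_⟩
  · rw [form_line, hxy]
    field_simp
    ring
  · funext v
    change ((fun i => σ v (x i)) + (-(polX (cv v) (fun k => σ v (y k)) (fun i => σ v (x i))
      (fun l => σ v (a l))) / form (cv v) (fun l => σ v (a l)) (fun k => σ v (y k))) •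
        (fun l => σ v (a l)), fun k => σ v (y k)) = _
    rw [hfa, hpa]
    ext i
    · change σ v (x i) + -(σ v (polX c y x a)) / σ v (form c a y) * σ v (a i) =
        σ v (x i + (-(polX c y x a) / form c a y) * a i)
      rw [map_add, map_mul, map_div₀, map_neg]
    · rfl

theorem ydir {A B : ℕ} {c : Fin A → Fin A → Fin B → Fin B → K}
    (hσ : DenseRange fun (a : K) (v : ι) => σ v a)
    {P Q : ∀ v, (Fin A → L v) × (Fin B → L v)} (hP : P ∈ closure (pts c σ))
    (h : ∀ v, SY (fun i j k l => σ v (c i j k l)) (P v) (Q v)) : Q ∈ closure (pts c σ) := by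
  rw [pts_sw]
  exact xdir (c := sw c) hσ ((pts_sw c P).1 hP) h

/-- the closure is stable under the pattern of moves -/
theorem pat_mem {A B : ℕ} {c : Fin A → Fin A → Fin B → Fin B → K}
    (hσ : DenseRange fun (a : K) (v : ι) => σ v a)
    {P S : ∀ v, (Fin A → L v) × (Fin B → L v)} (hP : P ∈ closure (pts c σ))
    (h : ∀ v, Pat (fun i j k l => σ v (c i j k l)) (P v) (S v)) : S ∈ closure (pts c σ) := by
  choose P1 P2 P3 P4 P5 P6 P7 h1 h2 h3 h4 h5 h6 h7 h8 using h
  exact xdir hσ (xdir hσ (ydir hσ (ydir hσ (xdir hσ (ydir hσ (ydir hσ (xdir hσ hP h1) h2) h3) h4)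
    h5) h6) h7) h8

end

theorem GoodOver.ne {A B : ℕ} {L : Type} [Field L] {c : Fin A → Fin A → Fin B → Fin B → L}
    {M : Type} [Field M] [Algebra L M] {T : (Fin A → L) × (Fin B → L)} (h : GoodOver c M T) :
    T.1 ≠ 0 ∧ T.2 ≠ 0 := by
  obtain ⟨x', x'', -, -, h3, -⟩ := h
  constructor
  · intro h0
    apply h3
    rw [h0]
    have : (fun i => algebraMap L M ((0 : Fin A → L) i)) = 0 := by
      funext i
      simp
    rw [this]
    exact polX_zero _ _ _
  · intro h0
    apply h3
    rw [h0]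
    have : (fun i => algebraMap L M ((0 : Fin B → L) i)) = 0 := by
      funext i
      simp
    rw [this]
    exact polX_zero' _ _ _

section

variable {K : Type} [Field K] {ι : Type} [Finite ι] {L : ι → Type}
  [∀ v, NontriviallyNormedField (L v)] [∀ v, CompleteSpace (L v)] {σ : ∀ v, K →+* L v}

/-- **The closure is open at all points with (G) in one of the two directions.** -/
theorem mixed {A B : ℕ} {c : Fin A → Fin A → Fin B → Fin B → K}
    (hσ : DenseRange fun (a : K) (v : ι) => σ v a)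
    (hy : ∀ v (y : Fin B → L v), y ≠ 0 → ∃ u, form (fun i j k l => σ v (c i j k l)) u y ≠ 0)
    (hx : ∀ v (x : Fin A → L v), x ≠ 0 → ∃ w, form (fun i j k l => σ v (c i j k l)) x w ≠ 0)
    {T : ∀ v, (Fin A → L v) × (Fin B → L v)} (hT : T ∈ closure (pts c σ))
    {M : ι → Type} [∀ v, Field (M v)] [∀ v, Algebra (L v) (M v)]
    (hG : ∀ v, GoodOver (fun i j k l => σ v (c i j k l)) (M v) (T v) ∨
      GoodOver (sw fun i j k l => σ v (c i j k l)) (M v) (T v).swap) :
    ∃ U ∈ 𝓝 T, ∀ S ∈ U, (∀ v, form (fun i j k l => σ v (c i j k l)) (S v).1 (S v).2 = 0) →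
      S ∈ closure (pts c σ) := by
  classical
  have h0 := fun v => on_closure hT v
  have hne : ∀ v, (T v).1 ≠ 0 ∧ (T v).2 ≠ 0 := by
    intro v
    rcases hG v with h | h
    · exact GoodOver.ne h
    · exact (GoodOver.ne h).symm
  let p : ι → Prop := fun v => GoodOver (fun i j k l => σ v (c i j k l)) (M v) (T v)
  have hev : ∀ v, ∀ᶠ S : (Fin A → L v) × (Fin B → L v) in 𝓝 (T v),
      (form (fun i j k l => σ v (c i j k l)) S.1 S.2 = 0 →
        (p v → Pat (fun i j k l => σ v (c i j k l)) (T v) S) ∧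
        (¬ p v → Pat (sw fun i j k l => σ v (c i j k l)) (T v).swap S.swap)) ∧
      S.1 ≠ 0 ∧ S.2 ≠ 0 := by
    intro v
    have e1 : ∀ᶠ S : (Fin A → L v) × (Fin B → L v) in 𝓝 (T v), S.1 ≠ 0 :=
      continuous_fst.continuousAt.eventually_ne (hne v).1
    have e2 : ∀ᶠ S : (Fin A → L v) × (Fin B → L v) in 𝓝 (T v), S.2 ≠ 0 :=
      continuous_snd.continuousAt.eventually_ne (hne v).2
    by_cases hp : p v
    · filter_upwards [reach (h0 v) hp, e1, e2] with S hS a1 a2
      exact ⟨fun h => ⟨fun _ => hS h, fun h' => absurd hp h'⟩, a1, a2⟩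
    · have hG' := (hG v).resolve_left hp
      have h0' : form (sw fun i j k l => σ v (c i j k l)) (T v).swap.1 (T v).swap.2 = 0 :=
        (form_sw _ _ _).trans (h0 v)
      have e3 := continuous_swap.continuousAt.eventually (reach h0' hG')
      filter_upwards [e3, e1, e2] with S hS a1 a2
      exact ⟨fun h => ⟨fun h' => absurd h' hp, fun _ => hS ((form_sw _ _ _).trans h)⟩, a1, a2⟩
  refine ⟨_, set_pi_mem_nhds (Set.finite_univ) fun v _ => hev v, fun S hS hSX => ?_⟩
  have hS' := fun v => hS v (Set.mem_univ v)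
  let R : ∀ v, (Fin A → L v) × (Fin B → L v) := fun v => if p v then S v else T v
  have hR : R ∈ closure (pts c σ) := by
    refine pat_mem hσ hT fun v => ?_
    by_cases hp : p v
    · simp only [R, if_pos hp]
      exact ((hS' v).1 (hSX v)).1 hp
    · simp only [R, if_neg hp]
      exact Pat.stay (hy v) (hx v) (hne v).1 (hne v).2
  rw [pts_sw]
  refine pat_mem (c := sw c) hσ ((pts_sw c R).1 hR) fun v => ?_
  by_cases hp : p v
  · simp only [R, if_pos hp]
    refine Pat.stay (fun x hx' => ?_) (fun y hy' => ?_) (hS' v).2.2 (hS' v).2.1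
    · obtain ⟨w, hw⟩ := hx v x hx'
      exact ⟨w, fun h => hw ((form_sw (fun i j k l => σ v (c i j k l)) x w).symm.trans h)⟩
    · obtain ⟨w, hw⟩ := hy v y hy'
      exact ⟨w, fun h => hw ((form_sw (fun i j k l => σ v (c i j k l)) w y).symm.trans h)⟩
  · simp only [R, if_neg hp]
    exact ((hS' v).1 (hSX v)).2 hp

end

end Pool.Agent.R70.BT2
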