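import Pool.Agent.R70.BT2.Sm

/-! The condition (G) at all points of general smooth hypersurfaces of bidegree (2, 2)
(helper70). -/

set_option autoImplicit false
set_option maxHeartbeats 400000

open Filter Topology

namespace Pool.Agent.R70.BT2

open Pool.Agent.R70.BT

attribute [local irreducible] form

section geo

variable {A B : ℕ} {M : Type} [Field M] (c : Fin A → Fin A → Fin B → Fin B → M) (y : Fin B → M)

theorem Pro.symm' {z z' : Fin A → M} (h : Pro c y z z') : Pro c y z' z := by
  intro w w'
  have := h w w'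
  linear_combination -this

/-- the polar form as a linear form -/
def lin (z : Fin A → M) : (Fin A → M) →ₗ[M] M where
  toFun u := polX c y z u
  map_add' a b := by
    have := polX_lin c y z a b 1
    rwa [one_smul, one_mul] at this
  map_smul' s v := polX_smul c y z v s

/-- pairs of planes -/
theorem two [Infinite M] (hA : 3 ≤ A) (l m : (Fin A → M) →ₗ[M] M)
    (hq : ∀ u, form c u y = l u * m u) {x : Fin A → M} (hlx : l x = 0)
    {wx : Fin A → M} (hwx : polX c y x wx ≠ 0)
    (hsm : ∀ z, z ≠ 0 → form c z y = 0 → (∀ w, polX c y z w = 0) → ∃ w, polY c z y w ≠ 0)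
    (star : ∀ x' x'', form c x' y = 0 → form c x'' y = 0 → polX c y x x' ≠ 0 →
      polX c y x' x'' ≠ 0 → Pro c y x' x'') {z z' : Fin A → M} (hz : form c z y = 0)
    (hz' : form c z' y = 0) : Pro c y z z' := by
  have hp : ∀ a b, polX c y a b = l a * m b + l b * m a := by
    intro a b
    rw [polX, hq, hq, hq, map_add, map_add]
    ring
  have hlm : l wx ≠ 0 ∧ m x ≠ 0 := by
    rw [hp, hlx, zero_mul, zero_add] at hwx
    exact ne_zero_and_ne_zero_of_mul hwx
  obtain ⟨hlw, hmx⟩ := hlm
  set x1 : Fin A → M := wx + (-(m wx / m x)) • x with hx1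
  have hmx1 : m x1 = 0 := by
    rw [hx1, map_add, map_smul, smul_eq_mul]
    field_simp
    ring
  have hlx1 : l x1 ≠ 0 := by
    rw [hx1, map_add, map_smul, smul_eq_mul, hlx, mul_zero, add_zero]
    exact hlw
  have base : ∀ a, m a = 0 → l a ≠ 0 → ∀ b, l b = 0 → m b ≠ 0 → Pro c y a b := by
    intro a h1 h2 b h3 h4
    refine star a b ?_ ?_ ?_ ?_
    · rw [hq, h1, mul_zero]
    · rw [hq, h3, zero_mul]
    · rw [hp, hlx, zero_mul, zero_add]
      exact mul_ne_zero h2 hmx
    · rw [hp, h3, zero_mul, add_zero]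
      exact mul_ne_zero h2 h4
  have extb : ∀ a, m a = 0 → l a ≠ 0 → ∀ b, l b = 0 → Pro c y a b := by
    intro a h1 h2 b h3 w w'
    refine ext_line c y (z := b) (v := x) (polY c a y w) (polY c a y w') w w'
      (base a h1 h2 x hlx hmx w w') (-(m b) / m x) fun t ht => ?_
    refine base a h1 h2 _ ?_ ?_ w w'
    · rw [map_add, map_smul, h3, hlx, smul_zero, add_zero]
    · rw [map_add, map_smul, smul_eq_mul]
      intro h
      apply ht
      field_simp
      linear_combination h
  have exta : ∀ a, m a = 0 → ∀ b, l b = 0 → Pro c y a b := by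
    intro a h1 b h3 w w'
    have h := ext_line c y (z := a) (v := x1) (polY c b y w) (polY c b y w') w w'
      (by
        have := extb x1 hmx1 hlx1 b h3 w w'
        linear_combination -this) (-(l a) / l x1) fun t ht => by
          have := extb (a + t • x1) (by rw [map_add, map_smul, h1, hmx1, smul_zero, add_zero])
            (by
              rw [map_add, map_smul, smul_eq_mul]
              intro h
              apply ht
              field_simp
              linear_combination h) b h3 w w'
          linear_combination -this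
    linear_combination -h
  obtain ⟨z0, hz0, hl0, hm0⟩ : ∃ z0 : Fin A → M, z0 ≠ 0 ∧ l z0 = 0 ∧ m z0 = 0 := by
    have hk : LinearMap.ker (l.prod m) ≠ ⊥ := by
      apply LinearMap.ker_ne_bot_of_finrank_lt
      rw [Module.finrank_prod, Module.finrank_self, Module.finrank_fin_fun]
      omega
    obtain ⟨z0, h1, h2⟩ := Submodule.exists_mem_ne_zero_of_ne_bot hk
    have h3 : (l z0, m z0) = (0 : M × M) := LinearMap.mem_ker.1 h1
    exact ⟨z0, h2, congrArg Prod.fst h3, congrArg Prod.snd h3⟩
  have hg0 : ∃ w, polY c z0 y w ≠ 0 := by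
    refine hsm z0 hz0 ?_ fun w => ?_
    · rw [hq, hl0, zero_mul]
    · rw [hp, hl0, hm0, zero_mul, mul_zero, add_zero]
  have h0 : ∀ z, form c z y = 0 → Pro c y z z0 := by
    intro z hz
    rw [hq] at hz
    rcases mul_eq_zero.1 hz with h | h
    · exact Pro.symm' c y (exta z0 hm0 z h)
    · exact exta z h z0 hl0
  exact Pro.trans' c y (h0 z hz) (Pro.symm' c y (h0 z' hz')) hg0

theorem all_pro [Infinite M] (hA : 3 ≤ A) {x : Fin A → M} (hx : form c x y = 0)
    {wx : Fin A → M} (hwx : polX c y x wx ≠ 0)
    (hsm : ∀ z, z ≠ 0 → form c z y = 0 → (∀ w, polX c y z w = 0) → ∃ w, polY c z y w ≠ 0)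
    (star : ∀ x' x'', form c x' y = 0 → form c x'' y = 0 → polX c y x x' ≠ 0 →
      polX c y x' x'' ≠ 0 → Pro c y x' x'') {z z' : Fin A → M} (hz : form c z y = 0)
    (hz' : form c z' y = 0) : Pro c y z z' := by
  by_cases R3 : ∀ z, form c z y = 0 → (∃ w, polX c y z w ≠ 0) →
      ∃ u, polX c y z u = 0 ∧ form c u y ≠ 0
  · have s1 : ∀ x', form c x' y = 0 → polX c y x x' ≠ 0 → ∀ z, form c z y = 0 →
        Pro c y x' z := by
      intro x' h1 h2 z hz w w'
      have h3 : polX c y x' x ≠ 0 := by
        rw [polX_comm]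
        exact h2
      exact dens' c y R3 h1 h3 (polY c x' y w) (polY c x' y w') w w'
        (fun x'' k1 k2 => star x' x'' h1 k1 h2 k2 w w') hz
    intro w w'
    have h := dens' c y R3 hx hwx (polY c z' y w) (polY c z' y w') w w' (fun x' k1 k2 => by
      have := s1 x' k1 k2 z' hz' w w'
      linear_combination -this) hz
    linear_combination -h
  · push Not at R3
    obtain ⟨z0, k1, ⟨w, k2⟩, k3⟩ := R3
    set lam := lin c y z0 with hlam
    have hl : ∀ u, lam u = polX c y z0 u := fun u => rfl
    set e : Fin A → M := (lam w)⁻¹ • w with he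
    have hle : lam e = 1 := by
      rw [he, map_smul, smul_eq_mul]
      exact inv_mul_cancel₀ k2
    set mu : (Fin A → M) →ₗ[M] M := lin c y e - (form c e y) • lam with hmu
    have hq : ∀ u, form c u y = lam u * mu u := by
      intro u
      have h1 : form c (u + (-(lam u)) • e) y = 0 := by
        refine k3 _ ?_
        rw [← hl, map_add, map_smul, hle, smul_eq_mul]
        ring
      rw [form_line] at h1
      have h2 : mu u = polX c y u e - form c e y * lam u := by
        rw [hmu, LinearMap.sub_apply, LinearMap.smul_apply, smul_eq_mul, polX_comm]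
        rfl
      rw [h2]
      linear_combination h1
    have h0 := hq x
    rw [hx] at h0
    rcases mul_eq_zero.1 h0.symm with h | h
    · exact two c y hA lam mu hq h hwx hsm star hz hz'
    · exact two c y hA mu lam (fun u => by rw [hq, mul_comm]) h hwx hsm star hz hz'

/-- The conditions on the form over an algebraically closed field: the hypersurface is smooth, and
for all `y` the linear forms `∂_y F(x', y)`, `F(x', y) = 0`, are not all proportional, and the same
with `x` and `y` exchanged. -/
def General : Prop :=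
  (∀ (x : Fin A → M) (y : Fin B → M), x ≠ 0 → y ≠ 0 → form c x y = 0 →
    (∃ w, polX c y x w ≠ 0) ∨ ∃ w, polY c x y w ≠ 0) ∧
  (∀ y : Fin B → M, y ≠ 0 → ∃ (x' x'' : Fin A → M) (w w' : Fin B → M),
    form c x' y = 0 ∧ form c x'' y = 0 ∧
      polY c x' y w * polY c x'' y w' ≠ polY c x' y w' * polY c x'' y w) ∧
  ∀ x : Fin A → M, x ≠ 0 → ∃ (y' y'' : Fin B → M) (w w' : Fin A → M),
    form c x y' = 0 ∧ form c x y'' = 0 ∧
      polX c y' x w * polX c y'' x w' ≠ polX c y' x w' * polX c y'' x w

end geo

theorem good_of {A B : ℕ} {L : Type} [Field L] (hA : 3 ≤ A)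
    {c : Fin A → Fin A → Fin B → Fin B → L} {M : Type} [Field M] [Infinite M] [Algebra L M]
    (h1 : ∀ (x : Fin A → M) (y : Fin B → M), x ≠ 0 → y ≠ 0 →
      form (fun i j k l => algebraMap L M (c i j k l)) x y = 0 →
      (∃ w, polX (fun i j k l => algebraMap L M (c i j k l)) y x w ≠ 0) ∨
        ∃ w, polY (fun i j k l => algebraMap L M (c i j k l)) x y w ≠ 0)
    (h2 : ∀ y : Fin B → M, y ≠ 0 → ∃ (x' x'' : Fin A → M) (w w' : Fin B → M),
      form (fun i j k l => algebraMap L M (c i j k l)) x' y = 0 ∧
      form (fun i j k l => algebraMap L M (c i j k l)) x'' y = 0 ∧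
      polY (fun i j k l => algebraMap L M (c i j k l)) x' y w *
        polY (fun i j k l => algebraMap L M (c i j k l)) x'' y w' ≠
      polY (fun i j k l => algebraMap L M (c i j k l)) x' y w' *
        polY (fun i j k l => algebraMap L M (c i j k l)) x'' y w)
    {T : (Fin A → L) × (Fin B → L)} (hT : form c T.1 T.2 = 0) (hT2 : T.2 ≠ 0)
    (hw : ∃ w, polX (fun i j k l => algebraMap L M (c i j k l))
      (fun k => algebraMap L M (T.2 k)) (fun i => algebraMap L M (T.1 i)) w ≠ 0) :
    GoodOver c M T := by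
  have hy : (fun k => algebraMap L M (T.2 k)) ≠ 0 := by
    intro h
    apply hT2
    funext k
    exact (map_eq_zero _).1 (congrFun h k)
  by_contra hcon
  obtain ⟨z, z', w, w', k1, k2, k3⟩ := h2 _ hy
  obtain ⟨wx, hwx⟩ := hw
  apply k3
  refine all_pro _ _ hA ?_ hwx ?_ ?_ k1 k2 w w'
  · rw [form_map, hT, map_zero]
  · intro z hz0 hz hz'
    rcases h1 z _ hz0 hy hz with ⟨w, h⟩ | h
    · exact absurd (hz' w) h
    · exact h
  · intro x' x'' g1 g2 g3 g4 w w'
    by_contra g5
    exact hcon ⟨x', x'', g1, g2, g3, g4, w, w', g5⟩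

theorem good_or {A B : ℕ} {L : Type} [Field L] (hA : 3 ≤ A) (hB : 3 ≤ B)
    {c : Fin A → Fin A → Fin B → Fin B → L} {M : Type} [Field M] [Infinite M] [Algebra L M]
    (h : General fun i j k l => algebraMap L M (c i j k l))
    {T : (Fin A → L) × (Fin B → L)} (hT : form c T.1 T.2 = 0) (hT1 : T.1 ≠ 0) (hT2 : T.2 ≠ 0) :
    GoodOver c M T ∨ GoodOver (sw c) M T.swap := by
  have hx : (fun i => algebraMap L M (T.1 i)) ≠ 0 := by
    intro h
    apply hT1
    funext k
    exact (map_eq_zero _).1 (congrFun h k)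
  have hy : (fun k => algebraMap L M (T.2 k)) ≠ 0 := by
    intro h
    apply hT2
    funext k
    exact (map_eq_zero _).1 (congrFun h k)
  obtain ⟨h1, h2, h3⟩ := h
  rcases h1 _ _ hx hy (by rw [form_map, hT, map_zero]) with hw | ⟨w, hw⟩
  · exact Or.inl (good_of hA h1 h2 hT hT2 hw)
  · right
    refine good_of (c := sw c) (M := M) hB ?_ ?_ (T := T.swap) ?_ hT1 ?_
    · intro y x hy hx hxy
      have h0 : form (fun i j k l => algebraMap L M (c i j k l)) x y = 0 :=
        (form_sw (fun i j k l => algebraMap L M (c i j k l)) x y).symm.trans hxy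
      rcases h1 x y hx hy h0 with ⟨w, h⟩ | ⟨w, h⟩
      · refine Or.inr ⟨w, ?_⟩
        rw [polY_sw]
        exact h
      · refine Or.inl ⟨w, ?_⟩
        rw [polY_sw] at h
        exact h
    · intro x hx
      obtain ⟨y', y'', w, w', g1, g2, g3⟩ := h3 x hx
      refine ⟨y', y'', w, w', ?_, ?_, ?_⟩
      · exact (form_sw (fun i j k l => algebraMap L M (c i j k l)) x y').trans g1
      · exact (form_sw (fun i j k l => algebraMap L M (c i j k l)) x y'').trans g2
      · rw [polY_sw, polY_sw, polY_sw, polY_sw]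
        exact g3
    · exact (form_sw _ _ _).trans hT
    · refine ⟨w, ?_⟩
      rw [polY_sw] at hw
      exact hw

end Pool.Agent.R70.BT2
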