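import Pool.Agent.R70.BT.Mz2
import Pool.Agent.R70.BT2.Two

/-! The closure of the rational points of general smooth hypersurfaces of bidegree (2, 2) in the
real points is semialgebraic (helper70). -/

set_option autoImplicit false
set_option maxHeartbeats 400000

open Filter Topology
open Pool.Agent.H581R2 Pool.Agent.TH729.SQ

namespace Pool.Agent.R70.BT2

open Pool.Agent.R70.BT

attribute [local irreducible] form

variable {A B : ℕ}

theorem good_real (hA : 3 ≤ A) (hB : 3 ≤ B) {c : Fin A → Fin A → Fin B → Fin B → ℚ}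
    (hg : General fun i j k l => ((c i j k l : ℚ) : ℂ)) {z : Fin (A + B) → ℝ}
    (hz : form (fun i j k l => algebraMap ℚ ℝ (c i j k l)) (xs A B z) (ys A B z) = 0)
    (hx : xs A B z ≠ 0) (hy : ys A B z ≠ 0) : z ∈ GoodSet c := by
  have e : (fun i j k l => algebraMap ℝ ℂ (algebraMap ℚ ℝ (c i j k l))) =
      fun i j k l => ((c i j k l : ℚ) : ℂ) := by
    funext i j k l
    simp
  exact ⟨hz, good_or (c := fun i j k l => algebraMap ℚ ℝ (c i j k l)) (M := ℂ) hA hB
    (by rw [e]; exact hg) (T := (xs A B z, ys A B z)) hz hx hy⟩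

theorem form_rat (c : Fin A → Fin A → Fin B → Fin B → ℚ) {z : Fin (A + B) → ℝ}
    (hz : z ∈ ratPts c) :
    form (fun i j k l => algebraMap ℚ ℝ (c i j k l)) (xs A B z) (ys A B z) = 0 := by
  obtain ⟨r, hr, rfl⟩ := hz
  have := form_map (algebraMap ℚ ℝ) c (xs A B r) (ys A B r)
  rw [hr, map_zero] at this
  exact this

theorem sa_general (hA : 3 ≤ A) (hB : 3 ≤ B) {c : Fin A → Fin A → Fin B → Fin B → ℚ}
    (hg : General fun i j k l => ((c i j k l : ℚ) : ℂ)) : SA (closure (ratPts c)) := by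
  refine sa_closure c ?_
  have h : {z ∈ ratPts c | xs A B z ≠ 0 ∧ ys A B z ≠ 0 ∧ z ∉ GoodSet c} = ∅ := by
    rw [Set.eq_empty_iff_forall_notMem]
    rintro z ⟨h1, h2, h3, h4⟩
    exact h4 (good_real hA hB hg (form_rat c h1) h2 h3)
  rw [h, closure_empty]
  have h1 : SAP fun v : Fin (A + B) → ℝ => (1 : ℝ) = 0 := by
    have h2 : PF fun _ : Fin (A + B) → ℝ => algebraMap ℚ ℝ 1 := pf_rat 1
    simpa using SAP.eq_zero h2
  refine SAP.congr h1 fun z => ?_
  constructor
  · intro h
    exact absurd h (Set.notMem_empty z)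
  · intro h
    exact absurd h one_ne_zero

theorem open_general (hA : 3 ≤ A) (hB : 3 ≤ B) {c : Fin A → Fin A → Fin B → Fin B → ℚ}
    (hg : General fun i j k l => ((c i j k l : ℚ) : ℂ)) {T : Fin (A + B) → ℝ}
    (hT : T ∈ closure (ratPts c)) (hx : xs A B T ≠ 0) (hy : ys A B T ≠ 0) :
    ∃ U ∈ 𝓝 T, ∀ S ∈ U, form (fun i j k l => algebraMap ℚ ℝ (c i j k l)) (xs A B S) (ys A B S) = 0 →
      S ∈ closure (ratPts c) := by
  have cx : Continuous fun z : Fin (A + B) → ℝ => xs A B z :=
    continuous_pi fun i => continuous_apply _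
  have cy : Continuous fun z : Fin (A + B) → ℝ => ys A B z :=
    continuous_pi fun i => continuous_apply _
  have h0 : form (fun i j k l => algebraMap ℚ ℝ (c i j k l)) (xs A B T) (ys A B T) = 0 := by
    have h1 : IsClosed {z : Fin (A + B) → ℝ |
        form (fun i j k l => algebraMap ℚ ℝ (c i j k l)) (xs A B z) (ys A B z) = 0} :=
      isClosed_eq (form_cont' _ cx cy) continuous_const
    exact closure_minimal (fun z hz => form_rat c hz) h1 hT
  obtain ⟨U, hU, h⟩ := open_real c (good_real hA hB hg h0 hx hy) hT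
  have e1 := cx.continuousAt.eventually_ne hx
  have e2 := cy.continuousAt.eventually_ne hy
  refine ⟨_, (show ∀ᶠ S in 𝓝 T, S ∈ U from hU).and (e1.and e2), fun S hS hSX => ?_⟩
  exact h S hS.1 (good_real hA hB hg hSX hS.2.1 hS.2.2)

end Pool.Agent.R70.BT2
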