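import Pool.Agent.R70.BT.Geo

/-! Reflections: the closure of the rational points of a hypersurface of bidegree (2, 2) is stable
under independent moves at the places (helper70). -/

set_option autoImplicit false
set_option maxHeartbeats 400000

open Filter Topology

namespace Pool.Agent.R70.BT2

open Pool.Agent.R70.BT

attribute [local irreducible] form

section one

variable {A B : ℕ} {L : Type} [Field L]

/-- the reflection of the first vector in `u` -/
def rx (c : Fin A → Fin A → Fin B → Fin B → L) (u : Fin A → L) (P : (Fin A → L) × (Fin B → L)) :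
    (Fin A → L) × (Fin B → L) :=
  (P.1 + (-(polX c P.2 P.1 u) / form c u P.2) • u, P.2)

/-- one move of the first vector -/
def SX (c : Fin A → Fin A → Fin B → Fin B → L) (P Q : (Fin A → L) × (Fin B → L)) : Prop :=
  ∃ u, form c u P.2 ≠ 0 ∧ Q = rx c u P

/-- one move of the second vector -/
def SY (c : Fin A → Fin A → Fin B → Fin B → L) (P Q : (Fin A → L) × (Fin B → L)) : Prop :=
  SX (sw c) P.swap Q.swap

theorem SX.snd {c : Fin A → Fin A → Fin B → Fin B → L} {P Q : (Fin A → L) × (Fin B → L)}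
    (h : SX c P Q) : Q.2 = P.2 := by
  obtain ⟨u, -, rfl⟩ := h
  rfl

theorem SX.symm {c : Fin A → Fin A → Fin B → Fin B → L} {P Q : (Fin A → L) × (Fin B → L)}
    (h : SX c P Q) : SX c Q P := by
  obtain ⟨u, hu, rfl⟩ := h
  refine ⟨u, hu, ?_⟩
  set q := form c u P.2 with hq
  set p := polX c P.2 P.1 u with hp
  have e1 : polX c P.2 (P.1 + (-p / q) • u) u = -p := by
    rw [polX_comm, polX_lin, polX_self, polX_comm, ← hp, ← hq]
    field_simp
    ring
  refine Prod.ext ?_ rfl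
  change P.1 = (P.1 + (-p / q) • u) + (-(polX c P.2 (P.1 + (-p / q) • u) u) / q) • u
  rw [e1]
  funext i
  simp only [Pi.add_apply, Pi.smul_apply, smul_eq_mul]
  field_simp
  ring

theorem SX.on {c : Fin A → Fin A → Fin B → Fin B → L} {P Q : (Fin A → L) × (Fin B → L)}
    (h : SX c P Q) (hP : form c P.1 P.2 = 0) : form c Q.1 Q.2 = 0 := by
  obtain ⟨u, hu, rfl⟩ := h
  change form c (P.1 + (-(polX c P.2 P.1 u) / form c u P.2) • u) P.2 = 0
  rw [form_line, hP]
  field_simp
  ring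

theorem sx_move {c : Fin A → Fin A → Fin B → Fin B → L} {x x' : Fin A → L} {y : Fin B → L}
    (h0 : form c x y = 0) (h1 : form c x' y = 0) (h : polX c y x x' ≠ 0) :
    SX c (x, y) (x', y) := by
  have e1 : form c (x' + (-1 : L) • x) y = -(polX c y x x') := by
    rw [form_line, h1, h0, polX_comm]
    ring
  have e2 : polX c y x (x' + (-1 : L) • x) = polX c y x x' := by
    rw [polX_lin, polX_self, h0]
    ring
  refine ⟨x' + (-1 : L) • x, ?_, ?_⟩
  · change form c (x' + (-1 : L) • x) y ≠ 0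
    rw [e1]
    exact neg_ne_zero.2 h
  · refine Prod.ext ?_ rfl
    change x' = x + (-(polX c y x (x' + (-1 : L) • x)) / form c (x' + (-1 : L) • x) y) •
      (x' + (-1 : L) • x)
    rw [e1, e2, div_self (neg_ne_zero.2 h), one_smul]
    funext i
    simp only [Pi.add_apply, Pi.smul_apply, smul_eq_mul]
    ring

theorem sy_move {c : Fin A → Fin A → Fin B → Fin B → L} {x : Fin A → L} {y y' : Fin B → L}
    (h0 : form c x y = 0) (h1 : form c x y' = 0) (h : polY c x y y' ≠ 0) :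
    SY c (x, y) (x, y') := by
  refine sx_move (c := sw c) ?_ ?_ ?_
  · rw [form_sw]
    exact h0
  · rw [form_sw]
    exact h1
  · rw [← polY_sw]
    exact h

theorem polX_zero {R : Type*} [CommRing R] (c : Fin A → Fin A → Fin B → Fin B → R)
    (y : Fin B → R) (x : Fin A → R) : polX c y 0 x = 0 := by
  rw [polX, zero_add]
  have : form c (0 : Fin A → R) y = 0 := by simp [form]
  rw [this]
  ring

theorem polX_zero' {R : Type*} [CommRing R] (c : Fin A → Fin A → Fin B → Fin B → R)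
    (x x' : Fin A → R) : polX c 0 x x' = 0 := by
  have h : ∀ x : Fin A → R, form c x (0 : Fin B → R) = 0 := fun x => by simp [form]
  rw [polX, h, h, h]
  ring

theorem SX.ne {c : Fin A → Fin A → Fin B → Fin B → L} {P Q : (Fin A → L) × (Fin B → L)}
    (h : SX c P Q) (hP : P.1 ≠ 0) : Q.1 ≠ 0 := by
  intro h0
  apply hP
  obtain ⟨u, -, h2⟩ := h.symm
  rw [h2]
  change Q.1 + (-(polX c Q.2 Q.1 u) / form c u Q.2) • u = 0
  rw [h0, polX_zero]
  simp

/-- the pattern of moves -/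
def Pat (c : Fin A → Fin A → Fin B → Fin B → L) (P S : (Fin A → L) × (Fin B → L)) : Prop :=
  ∃ P1 P2 P3 P4 P5 P6 P7 : (Fin A → L) × (Fin B → L), SX c P P1 ∧ SY c P1 P2 ∧ SY c P2 P3 ∧
    SX c P3 P4 ∧ SY c P4 P5 ∧ SY c P5 P6 ∧ SX c P6 P7 ∧ SX c P7 S

theorem SY.symm {c : Fin A → Fin A → Fin B → Fin B → L} {P Q : (Fin A → L) × (Fin B → L)}
    (h : SY c P Q) : SY c Q P := SX.symm (c := sw c) h

theorem Pat.stay {c : Fin A → Fin A → Fin B → Fin B → L}
    (h1 : ∀ y : Fin B → L, y ≠ 0 → ∃ u, form c u y ≠ 0)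
    (h2 : ∀ x : Fin A → L, x ≠ 0 → ∃ w, form c x w ≠ 0)
    {P : (Fin A → L) × (Fin B → L)} (hx : P.1 ≠ 0) (hy : P.2 ≠ 0) : Pat c P P := by
  obtain ⟨u, hu⟩ := h1 P.2 hy
  have k1 : SX c P (rx c u P) := ⟨u, hu, rfl⟩
  have hy' : ∀ Q : (Fin A → L) × (Fin B → L), Q.1 ≠ 0 → ∃ Q', SY c Q Q' := by
    intro Q hQ
    obtain ⟨w, hw⟩ := h2 Q.1 hQ
    refine ⟨(rx (sw c) w Q.swap).swap, w, ?_, ?_⟩
    · rw [form_sw]
      exact hw
    · rw [Prod.swap_swap]
  obtain ⟨Q', hQ'⟩ := hy' _ (k1.ne hx)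
  obtain ⟨P', hP'⟩ := hy' _ hx
  exact ⟨_, _, _, _, _, _, _, k1, hQ', hQ'.symm, k1.symm, hP', hP'.symm, k1, k1.symm⟩

end one

section loc

variable {L : Type} [NontriviallyNormedField L] [CompleteSpace L] {A B : ℕ}

/-- **All the points near a point with (G) are reached.** -/
theorem reach {c : Fin A → Fin A → Fin B → Fin B → L} {M : Type} [Field M] [Algebra L M]
    {T : (Fin A → L) × (Fin B → L)} (h0 : form c T.1 T.2 = 0) (hG : GoodOver c M T) :
    ∀ᶠ S : (Fin A → L) × (Fin B → L) in 𝓝 T, form c S.1 S.2 = 0 → Pat c T S := by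
  have : Infinite L := NontriviallyNormedField.infinite L
  obtain ⟨x', ⟨k1, k2⟩, x2, g1, g2, w, w', g3⟩ := good_descent c h0 hG
  have hch := chain k1 g1 g2 g3
  have hB : polX c T.2 x' T.1 ≠ 0 := by
    rw [polX_comm]
    exact k2
  have c1 : Continuous fun e : (Fin A → L) × ((Fin A → L) × (Fin B → L)) => e.1 := by fun_prop
  have c2 : Continuous fun e : (Fin A → L) × ((Fin A → L) × (Fin B → L)) => e.2.1 := by fun_prop
  have c3 : Continuous fun e : (Fin A → L) × ((Fin A → L) × (Fin B → L)) => e.2.2 := by fun_prop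
  have d1 : ∀ᶠ e : (Fin A → L) × ((Fin A → L) × (Fin B → L)) in 𝓝 (x', (T.1, T.2)), _ :=
    (c1.prodMk c3).continuousAt.eventually hch
  have d2 := (polX_cont c c1 c2 c3).continuousAt.eventually_ne
    (x := (x', (T.1, T.2))) (y := (0 : L)) hB
  have hl := lift (x3 := x') (x0 := T.1) (y0 := T.2) k1 hB (d1.and d2)
  filter_upwards [hl] with S hS hSX
  obtain ⟨X', ⟨⟨z, Y, z', X, b1, b2, b3, b4, b5, b6⟩, a2⟩, a3⟩ := hS
  refine ⟨(x', T.2), (x', z), (x', Y), (X, Y), (X, z'), (X, S.2), (X', S.2), sx_move h0 k1 k2,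
    sy_move k1 b1.1 b1.2, sy_move b1.1 b2.1 b2.2, sx_move b2.1 b3.1 b3.2, sy_move b3.1 b4.1 b4.2,
    sy_move b4.1 b5.1 b5.2, sx_move b5.1 a3 b6, sx_move a3 hSX a2⟩

end loc

end Pool.Agent.R70.BT2
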