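import Pool.Agent.R70.BT2.Main

/-! The condition (G) at all regular points of the quadrics (helper70). -/

set_option autoImplicit false
set_option maxHeartbeats 400000

open Filter Topology

namespace Pool.Agent.R70.BT2

open Pool.Agent.R70.BT

attribute [local irreducible] form

section geo

variable {A B : ℕ} {M : Type} [Field M] (c : Fin A → Fin A → Fin B → Fin B → M) (y : Fin B → M)

theorem exists_both {x z w1 w2 : Fin A → M} (h1 : polX c y x w1 ≠ 0) (h2 : polX c y z w2 ≠ 0) :
    ∃ u, polX c y x u ≠ 0 ∧ polX c y z u ≠ 0 := by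
  by_cases a1 : polX c y z w1 = 0
  · by_cases a2 : polX c y x w2 = 0
    · refine ⟨w1 + (1 : M) • w2, ?_, ?_⟩
      · rw [polX_lin, a2, mul_zero, add_zero]
        exact h1
      · rw [polX_lin, a1, zero_add, one_mul]
        exact h2
    · exact ⟨w2, a2, h2⟩
  · exact ⟨w1, h1, a1⟩

theorem dens [Infinite M] {x z : Fin A → M} (hz : form c z y = 0)
    {wx wz : Fin A → M} (hwx : polX c y x wx ≠ 0) (hwz : polX c y z wz ≠ 0)
    {u0 : Fin A → M} (hu0 : polX c y z u0 = 0) (hu0' : form c u0 y ≠ 0)
    (a b : M) (w w' : Fin B → M)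
    (H : ∀ x', form c x' y = 0 → polX c y x x' ≠ 0 → a * polY c x' y w' = b * polY c x' y w) :
    a * polY c z y w' = b * polY c z y w := by
  let R := MvPolynomial (Fin A) M
  let cC : Fin A → Fin A → Fin B → Fin B → R := fun i j k l => MvPolynomial.C (c i j k l)
  let V : Fin A → R := par cC (fun k => MvPolynomial.C (y k)) (fun i => MvPolynomial.C (z i))
    (fun i => MvPolynomial.X i)
  let P : R := MvPolynomial.C a * polY cC V (fun k => MvPolynomial.C (y k))
      (fun k => MvPolynomial.C (w' k)) -
    MvPolynomial.C b * polY cC V (fun k => MvPolynomial.C (y k)) (fun k => MvPolynomial.C (w k))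
  let N : R := polX cC (fun k => MvPolynomial.C (y k)) (fun i => MvPolynomial.C (x i)) V
  have hV : ∀ u : Fin A → M, (fun i => MvPolynomial.eval u (V i)) = par c y z u := by
    intro u
    have h := par_map (MvPolynomial.eval u) cC (fun k => MvPolynomial.C (y k))
      (fun i => MvPolynomial.C (z i)) (fun i => MvPolynomial.X i)
    simp only [cC, MvPolynomial.eval_C, MvPolynomial.eval_X] at h
    exact h.symm
  have hPe : ∀ u : Fin A → M, MvPolynomial.eval u P =
      a * polY c (par c y z u) y w' - b * polY c (par c y z u) y w := by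
    intro u
    have h1 := polY_map (MvPolynomial.eval u) cC V (fun k => MvPolynomial.C (y k))
      (fun k => MvPolynomial.C (w' k))
    have h2 := polY_map (MvPolynomial.eval u) cC V (fun k => MvPolynomial.C (y k))
      (fun k => MvPolynomial.C (w k))
    rw [hV] at h1 h2
    simp only [cC, MvPolynomial.eval_C] at h1 h2
    rw [map_sub, map_mul, map_mul, MvPolynomial.eval_C, MvPolynomial.eval_C]
    exact congrArg₂ (fun s t => a * s - b * t) h1.symm h2.symm
  have hNe : ∀ u : Fin A → M, MvPolynomial.eval u N = polX c y x (par c y z u) := by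
    intro u
    have h1 := polX_map (MvPolynomial.eval u) cC (fun k => MvPolynomial.C (y k))
      (fun i => MvPolynomial.C (x i)) V
    rw [hV] at h1
    simp only [cC, MvPolynomial.eval_C] at h1
    exact h1.symm
  have hval : ∀ u, polX c y x (par c y z u) =
      form c u y * polX c y x z - polX c y z u * polX c y x u := by
    intro u
    rw [par_eq, polX_lin, polX_smul]
    ring
  have hN : N ≠ 0 := by
    intro h0
    by_cases hxz : polX c y x z = 0
    · obtain ⟨u, k1, k2⟩ := exists_both c y hwx hwz
      have h := hNe u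
      rw [h0, map_zero, hval, hxz, mul_zero, zero_sub] at h
      exact neg_ne_zero.2 (mul_ne_zero k2 k1) h.symm
    · have h := hNe u0
      rw [h0, map_zero, hval, hu0, zero_mul, sub_zero] at h
      exact mul_ne_zero hu0' hxz h.symm
  have hPN : P * N = 0 := by
    refine MvPolynomial.funext fun u => ?_
    rw [map_mul, map_zero]
    by_cases hu : polX c y x (par c y z u) = 0
    · rw [hNe, hu, mul_zero]
    · rw [hPe, H _ (form_par c hz u) hu, sub_self, zero_mul]
  have hP : P = 0 := (mul_eq_zero.1 hPN).resolve_right hN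
  have h1 := hPe u0
  rw [hP, map_zero, par_eq, hu0, neg_zero, zero_smul, add_zero, polY_smulX, polY_smulX] at h1
  have h2 : form c u0 y ^ 2 ≠ 0 := pow_ne_zero 2 hu0'
  have h3 : form c u0 y ^ 2 * (a * polY c z y w' - b * polY c z y w) = 0 := by
    linear_combination -h1
  exact sub_eq_zero.1 ((mul_eq_zero.1 h3).resolve_left h2)

/-- extension along a line -/
theorem ext_line [Infinite M] {z v : Fin A → M} (a b : M) (w w' : Fin B → M)
    (h0 : a * polY c v y w' = b * polY c v y w) (tb : M)
    (H : ∀ t, t ≠ tb → a * polY c (z + t • v) y w' = b * polY c (z + t • v) y w) :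
    a * polY c z y w' = b * polY c z y w := by
  classical
  have key : ∀ (t : M) (w : Fin B → M), polY c (z + t • v) y w = polY c z y w +
      t * (polX c (y + w) z v - polX c y z v - polX c w z v) + t ^ 2 * polY c v y w := by
    intro t w
    simp only [polY, form_line]
    ring
  obtain ⟨t1, ht1⟩ := Infinite.exists_notMem_finset ({tb} : Finset M)
  obtain ⟨t2, ht2⟩ := Infinite.exists_notMem_finset ({tb, t1} : Finset M)
  simp only [Finset.mem_singleton, Finset.mem_insert, not_or] at ht1 ht2
  have h1 := H t1 ht1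
  have h2 := H t2 ht2.1
  rw [key, key] at h1 h2
  have h3 : t2 - t1 ≠ 0 := sub_ne_zero.2 ht2.2
  set D1 := polX c (y + w') z v - polX c y z v - polX c w' z v
  set D2 := polX c (y + w) z v - polX c y z v - polX c w z v
  have h4 : (t2 - t1) * (a * D1 - b * D2) = 0 := by
    linear_combination h2 - h1 - (t2 ^ 2 - t1 ^ 2) * h0
  have h5 := (mul_eq_zero.1 h4).resolve_left h3
  linear_combination h1 - t1 * h5 - t1 ^ 2 * h0

/-- proportional linear forms -/
def Pro (z z' : Fin A → M) : Prop := ∀ w w', polY c z y w * polY c z' y w' =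
  polY c z y w' * polY c z' y w

theorem Pro.trans' {z z' z'' : Fin A → M} (h : Pro c y z z') (h' : Pro c y z' z'')
    (h0 : ∃ w, polY c z' y w ≠ 0) : Pro c y z z'' := by
  obtain ⟨w0, hw0⟩ := h0
  intro w w'
  have a1 := h w w0
  have a2 := h w' w0
  have a3 := h' w w0
  have a4 := h' w' w0
  have h2 : polY c z' y w0 ^ 2 ≠ 0 := pow_ne_zero 2 hw0
  apply mul_left_cancel₀ h2
  linear_combination (polY c z' y w0 * polY c z'' y w') * a1 -
    (polY c z' y w0 * polY c z'' y w) * a2 - (polY c z y w0 * polY c z' y w) * a4 +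
    (polY c z y w0 * polY c z' y w') * a3

/-- rank at least three -/
theorem dens' [Infinite M]
    (R3 : ∀ z, form c z y = 0 → (∃ w, polX c y z w ≠ 0) → ∃ u, polX c y z u = 0 ∧ form c u y ≠ 0)
    {x : Fin A → M} (hx : form c x y = 0) {wx : Fin A → M} (hwx : polX c y x wx ≠ 0)
    (a b : M) (w w' : Fin B → M)
    (H : ∀ x', form c x' y = 0 → polX c y x x' ≠ 0 → a * polY c x' y w' = b * polY c x' y w)
    {z : Fin A → M} (hz : form c z y = 0) : a * polY c z y w' = b * polY c z y w := by
  have hns : ∀ z, form c z y = 0 → (∃ w, polX c y z w ≠ 0) →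
      a * polY c z y w' = b * polY c z y w := by
    intro z hz hs
    obtain ⟨u, hu1, hu2⟩ := R3 z hz hs
    obtain ⟨wz, hwz⟩ := hs
    exact dens c y hz hwx hwz hu1 hu2 a b w w' H
  by_cases hs : ∃ w, polX c y z w ≠ 0
  · exact hns z hz hs
  · push Not at hs
    refine ext_line c y a b w w' (hns x hx ⟨wx, hwx⟩) 0 fun t ht => ?_
    refine hns _ ?_ ⟨wx, ?_⟩
    · rw [form_line, hz, hs, hx]
      ring
    · rw [polX_comm, polX_lin, polX_comm, hs, polX_comm, zero_add]
      exact mul_ne_zero ht hwx

end geo

end Pool.Agent.R70.BT2
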